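import Pool.Agent.Helper25.LS.Defs

/-!
# Packet LV of project LS (MP_03bcbb_an): lifting of vectors with control of the norm
-/

set_option autoImplicit false

open Filter Topology

namespace Pool.Agent.Helper69.LS

open Pool.Agent.Helper25.LS

theorem lv : S_LV := by
  intro X _ _ U Y _ _ D y
  obtain ⟨x', hx'⟩ := D.surj y
  set c : ℕ → ℝ := fun j => min 1 (‖y‖ / ‖x' j‖) with hc
  have hc0 : ∀ j, 0 ≤ c j := fun j => le_min zero_le_one (by positivity)
  have hc1 : ∀ j, c j ≤ 1 := fun j => min_le_left _ _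
  have hmul : ∀ j, c j * ‖x' j‖ = min ‖x' j‖ ‖y‖ := by
    intro j
    by_cases h0 : ‖x' j‖ = 0
    · rw [h0, mul_zero, min_eq_left (norm_nonneg y)]
    · have hpos : 0 < ‖x' j‖ := lt_of_le_of_ne (norm_nonneg _) (Ne.symm h0)
      rw [hc]
      simp only
      rw [min_mul_of_nonneg _ _ hpos.le, one_mul, div_mul_cancel₀ _ h0]
  have hnorm : ∀ j, ‖((c j : ℂ)) • (x' j)‖ = min ‖x' j‖ ‖y‖ := by
    intro j
    rw [norm_smul, Complex.norm_real, Real.norm_of_nonneg (hc0 j), hmul j]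
  have hmem : Memℓp (fun j => ((c j : ℂ)) • (x' j)) ⊤ := by
    apply memℓp_infty
    refine ⟨‖y‖, ?_⟩
    rintro _ ⟨j, rfl⟩
    simp only
    rw [hnorm j]
    exact min_le_right _ _
  set x : lp X ⊤ := ⟨fun j => ((c j : ℂ)) • (x' j), hmem⟩ with hx
  have hxj : ∀ j, x j = ((c j : ℂ)) • (x' j) := fun j => rfl
  refine ⟨x, ?_, ?_⟩
  · have h1 : Tendsto (fun j => ‖(x' - x) j‖) (U : Filter ℕ) (𝓝 ‖D.π (x' - x)‖) := D.lim (x' - x)
    have h2 : ∀ j, ‖(x' - x) j‖ = ‖x' j‖ - min ‖x' j‖ ‖y‖ := by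
      intro j
      have e : (x' - x) j = ((1 - c j : ℝ) : ℂ) • (x' j) := by
        change x' j - x j = _
        rw [hxj j]
        push_cast
        rw [sub_smul, one_smul]
      rw [e, norm_smul, Complex.norm_real, Real.norm_of_nonneg (by linarith [hc1 j]),
        ← hmul j]
      ring
    have h3 : Tendsto (fun j => ‖(x' - x) j‖) (U : Filter ℕ) (𝓝 (‖y‖ - min ‖y‖ ‖y‖)) := by
      have h4 : Tendsto (fun j => ‖x' j‖) (U : Filter ℕ) (𝓝 ‖y‖) := by
        have := D.lim x'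
        rwa [hx'] at this
      have h5 : Tendsto (fun j => ‖x' j‖ - min ‖x' j‖ ‖y‖) (U : Filter ℕ)
          (𝓝 (‖y‖ - min ‖y‖ ‖y‖)) := h4.sub (h4.min tendsto_const_nhds)
      exact h5.congr (fun j => (h2 j).symm)
    have h6 : ‖D.π (x' - x)‖ = 0 := by
      have := tendsto_nhds_unique h1 h3
      rw [this, min_self, sub_self]
    have h7 : D.π x' - D.π x = 0 := by
      rw [← map_sub]
      exact norm_eq_zero.mp h6
    rw [← hx']
    exact (sub_eq_zero.mp h7).symm
  · intro j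
    rw [hxj j, hnorm j]
    exact min_le_right _ _

end Pool.Agent.Helper69.LS
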